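import Mathlib

set_option autoImplicit false

/-!
# A counterexample to Hayashi's conjecture

The group is the wreath product of `ZMod 105` with `Perm (Fin 5)`, written as pairs `(v, s)`, and
the quandle is the conjugacy class of `g = ((0,0,36,85,91), (0 1))`.
-/

namespace Pool.Agent.H435R3.Hayashi

/-- pairs `(v, s)` -/
@[ext]
structure W where
  v : Fin 5 → ZMod 105
  s : Equiv.Perm (Fin 5)
deriving DecidableEq

namespace W

instance : Mul W := ⟨fun a b => ⟨fun i => a.v i + b.v (a.s⁻¹ i), a.s * b.s⟩⟩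
instance : One W := ⟨⟨fun _ => 0, 1⟩⟩
instance : Inv W := ⟨fun a => ⟨fun i => - a.v (a.s i), a.s⁻¹⟩⟩

@[simp] lemma mul_v (a b : W) (i : Fin 5) : (a * b).v i = a.v i + b.v (a.s⁻¹ i) := rfl
@[simp] lemma mul_s (a b : W) : (a * b).s = a.s * b.s := rfl
@[simp] lemma one_v (i : Fin 5) : (1 : W).v i = 0 := rfl
@[simp] lemma one_s : (1 : W).s = 1 := rfl
@[simp] lemma inv_v (a : W) (i : Fin 5) : (a⁻¹).v i = - a.v (a.s i) := rfl
@[simp] lemma inv_s (a : W) : (a⁻¹).s = a.s⁻¹ := rfl

instance : Group W := Group.ofLeftAxioms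
  (by
    intro a b c
    ext i
    · simp [add_assoc, Equiv.Perm.mul_apply]
    · simp [mul_assoc])
  (by intro a; ext i <;> simp)
  (by intro a; ext i <;> simp)

/-- `W` as a product -/
def equiv : W ≃ (Fin 5 → ZMod 105) × Equiv.Perm (Fin 5) where
  toFun a := (a.v, a.s)
  invFun a := ⟨a.1, a.2⟩
  left_inv _ := rfl
  right_inv _ := rfl

instance : Finite W := Finite.of_equiv _ equiv.symm

end W

/-- conjugacy class of an element, as a type -/
def CC {G : Type} [Group G] (g : G) : Type := {x : G // ∃ h : G, h * g * h⁻¹ = x}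

namespace CC

variable {G : Type} [Group G] {g : G}

instance [Finite G] : Finite (CC g) := Subtype.finite

lemma conj_mem (x y : CC g) : ∃ h : G, h * g * h⁻¹ = x.1 * y.1 * x.1⁻¹ := by
  obtain ⟨h, hh⟩ := y.2
  exact ⟨x.1 * h, by rw [← hh]; group⟩

lemma conj_mem' (x y : CC g) : ∃ h : G, h * g * h⁻¹ = x.1⁻¹ * y.1 * x.1 := by
  obtain ⟨h, hh⟩ := y.2
  exact ⟨x.1⁻¹ * h, by rw [← hh]; group⟩

instance : Quandle (CC g) where
  act x y := ⟨x.1 * y.1 * x.1⁻¹, conj_mem x y⟩
  self_distrib := by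
    intro x y z
    apply Subtype.ext
    show x.1 * (y.1 * z.1 * y.1⁻¹) * x.1⁻¹ =
      (x.1 * y.1 * x.1⁻¹) * (x.1 * z.1 * x.1⁻¹) * (x.1 * y.1 * x.1⁻¹)⁻¹
    group
  invAct x y := ⟨x.1⁻¹ * y.1 * x.1, conj_mem' x y⟩
  left_inv := by
    intro x y
    apply Subtype.ext
    show x.1⁻¹ * (x.1 * y.1 * x.1⁻¹) * x.1 = y.1
    group
  right_inv := by
    intro x y
    apply Subtype.ext
    show x.1 * (x.1⁻¹ * y.1 * x.1) * x.1⁻¹ = y.1
    group
  fix := by
    intro x
    apply Subtype.ext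
    show x.1 * x.1 * x.1⁻¹ = x.1
    group

lemma act_val (x y : CC g) : (Shelf.act x y : CC g).1 = x.1 * y.1 * x.1⁻¹ := rfl

lemma act_iter_val (x y : CC g) (n : ℕ) :
    ((Shelf.act x)^[n] y : CC g).1 = x.1 ^ n * y.1 * (x.1 ^ n)⁻¹ := by
  induction n with
  | zero => simp
  | succ n ih =>
    rw [Function.iterate_succ_apply', act_val, ih, pow_succ']
    group

/-- group elements realised by inner automorphisms -/
def real (g : G) : Subgroup G where
  carrier := {h | ∃ t ∈ Subgroup.closure (Set.range (Rack.act' : CC g → Equiv.Perm (CC g))),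
    ∀ x : CC g, (t x).1 = h * x.1 * h⁻¹}
  mul_mem' := by
    rintro a b ⟨t, ht, h1⟩ ⟨u, hu, h2⟩
    refine ⟨t * u, Subgroup.mul_mem _ ht hu, fun x => ?_⟩
    rw [Equiv.Perm.mul_apply, h1, h2]
    group
  one_mem' := ⟨1, Subgroup.one_mem _, fun x => by simp⟩
  inv_mem' := by
    rintro a ⟨t, ht, h1⟩
    refine ⟨t⁻¹, Subgroup.inv_mem _ ht, fun x => ?_⟩
    have h2 := h1 (t⁻¹ x)
    have h3 : t (t⁻¹ x) = x := Equiv.apply_symm_apply t x
    rw [h3] at h2
    rw [h2]
    group

lemma mem_real (x : CC g) : x.1 ∈ real g :=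
  ⟨Rack.act' x, Subgroup.subset_closure ⟨x, rfl⟩, fun _ => rfl⟩

/-- the base point -/
def base (g : G) : CC g := ⟨g, 1, by simp⟩

lemma base_val : (base g).1 = g := rfl

lemma normalClosure_le : Subgroup.normalClosure {g} ≤ real g := by
  unfold Subgroup.normalClosure
  rw [Subgroup.closure_le]
  intro x hx
  rw [Group.mem_conjugatesOfSet_iff] at hx
  obtain ⟨a, ha, hx⟩ := hx
  rw [Set.mem_singleton_iff] at ha
  subst ha
  rw [isConj_iff] at hx
  exact mem_real ⟨x, hx⟩

/-- If the normal closure of `g` together with the centralizer of `g` generates the group, the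
quandle is connected. -/
lemma connected (hg : Subgroup.normalClosure {g} ⊔ Subgroup.centralizer {g} = ⊤) (a b : CC g) :
    ∃ t ∈ Subgroup.closure (Set.range (Rack.act' : CC g → Equiv.Perm (CC g))), t a = b := by
  have key : ∀ h : G, ∃ t ∈ Subgroup.closure (Set.range (Rack.act' : CC g → Equiv.Perm (CC g))),
      (t (base g)).1 = h * g * h⁻¹ := by
    intro h
    have hh : h ∈ Subgroup.normalClosure {g} ⊔ Subgroup.centralizer {g} := by rw [hg]; trivial
    rw [Subgroup.mem_sup_of_normal_left] at hh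
    obtain ⟨n, hn, c, hc, rfl⟩ := hh
    obtain ⟨t, ht, ht'⟩ := normalClosure_le hn
    refine ⟨t, ht, ?_⟩
    rw [ht', base_val]
    rw [Subgroup.mem_centralizer_singleton_iff] at hc
    have : c * g * c⁻¹ = g := by rw [hc]; group
    calc n * g * n⁻¹ = n * (c * g * c⁻¹) * n⁻¹ := by rw [this]
      _ = _ := by group
  obtain ⟨ha, hha⟩ := a.2
  obtain ⟨hb, hhb⟩ := b.2
  obtain ⟨t, ht, ht'⟩ := key ha
  obtain ⟨u, hu, hu'⟩ := key hb
  refine ⟨u * t⁻¹, Subgroup.mul_mem _ hu (Subgroup.inv_mem _ ht), ?_⟩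
  have h1 : t (base g) = a := Subtype.ext (by rw [ht', hha])
  have h2 : u (base g) = b := Subtype.ext (by rw [hu', hhb])
  rw [Equiv.Perm.mul_apply, ← h1, ← h2]
  congr 1
  exact Equiv.symm_apply_apply t _

end CC

open W

/-- the vector -/
def vec : Fin 5 → ZMod 105 := ![0, 0, 36, 85, 91]

/-- the element -/
def g : W := ⟨vec, Equiv.swap 0 1⟩

/-- translations -/
def tr (u : Fin 5 → ZMod 105) : W := ⟨u, 1⟩

/-- permutations -/
def pe : Equiv.Perm (Fin 5) →* W where
  toFun s := ⟨fun _ => 0, s⟩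
  map_one' := rfl
  map_mul' := by intro a b; ext i <;> simp

lemma tr_add (u v : Fin 5 → ZMod 105) : tr (u + v) = tr u * tr v := by
  ext i <;> simp [tr]

lemma tr_mem_centralizer (u : Fin 5 → ZMod 105) (hu : u 0 = u 1) :
    tr u ∈ Subgroup.centralizer {g} := by
  rw [Subgroup.mem_centralizer_singleton_iff]
  ext i
  · simp only [tr, g, mul_v, inv_one, Equiv.Perm.one_apply, Equiv.swap_inv]
    fin_cases i
    · simp [Equiv.swap_apply_def, add_comm, hu]
    · simp [Equiv.swap_apply_def, add_comm, hu]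
    · simp [Equiv.swap_apply_def, add_comm]
    · simp [Equiv.swap_apply_def, add_comm]
    · simp [Equiv.swap_apply_def, add_comm]
  · simp [tr, g]

lemma g_mem : g ∈ Subgroup.normalClosure {g} := Subgroup.subset_normalClosure (Set.mem_singleton g)

lemma conj_g_mem (h : W) : h * g * h⁻¹ ∈ Subgroup.normalClosure {g} :=
  Subgroup.normalClosure_normal.conj_mem g g_mem h

lemma tr_mem_normal (c : ZMod 105) :
    tr ![c, -c, 0, 0, 0] ∈ Subgroup.normalClosure {g} := by
  have h1 := conj_g_mem (tr ![c, 0, 0, 0, 0])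
  have h2 : g⁻¹ ∈ Subgroup.normalClosure {g} := Subgroup.inv_mem _ g_mem
  have h3 := Subgroup.mul_mem _ h1 h2
  have h4 : tr ![c, -c, 0, 0, 0] = tr ![c, 0, 0, 0, 0] * g * (tr ![c, 0, 0, 0, 0])⁻¹ * g⁻¹ := by
    rw [eq_mul_inv_iff_mul_eq, eq_mul_inv_iff_mul_eq]
    ext i
    · simp only [tr, g, mul_v, inv_one, Equiv.Perm.one_apply, Equiv.swap_inv, mul_s, one_mul]
      fin_cases i <;> simp [Equiv.swap_apply_def, add_comm]
    · simp [tr, g]
  rw [h4]
  exact h3

lemma tr_mem (u : Fin 5 → ZMod 105) :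
    tr u ∈ Subgroup.normalClosure {g} ⊔ Subgroup.centralizer {g} := by
  have h : u = ![53 * (u 0 - u 1), -(53 * (u 0 - u 1)), 0, 0, 0] +
      (u - ![53 * (u 0 - u 1), -(53 * (u 0 - u 1)), 0, 0, 0]) := by
    abel
  rw [h, tr_add]
  refine Subgroup.mul_mem _ (Subgroup.mem_sup_left (tr_mem_normal _))
    (Subgroup.mem_sup_right (tr_mem_centralizer _ ?_))
  simp only [Pi.sub_apply, Matrix.cons_val_zero, Matrix.cons_val_one]
  have h106 : (106 : ZMod 105) = 1 := by decide
  linear_combination (-(u 0 - u 1)) * h106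

lemma exists_conj (a b : Fin 5) (hab : a ≠ b) :
    ∃ s : Equiv.Perm (Fin 5), s * Equiv.swap 0 1 * s⁻¹ = Equiv.swap a b := by
  exact isConj_iff.1 (Equiv.Perm.isConj_swap (by decide) hab)

lemma pe_mem (s : Equiv.Perm (Fin 5)) :
    pe s ∈ Subgroup.normalClosure {g} ⊔ Subgroup.centralizer {g} := by
  have h : (Subgroup.normalClosure {g} ⊔ Subgroup.centralizer {g}).comap pe = ⊤ := by
    rw [eq_top_iff, ← Equiv.Perm.closure_isSwap, Subgroup.closure_le]
    rintro t ⟨a, b, hab, rfl⟩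
    obtain ⟨s, hs⟩ := exists_conj a b hab
    show pe (Equiv.swap a b) ∈ Subgroup.normalClosure {g} ⊔ Subgroup.centralizer {g}
    have h1 := conj_g_mem (pe s)
    have h2 : pe (Equiv.swap a b) =
        tr (-(pe s * g * (pe s)⁻¹).v) * (pe s * g * (pe s)⁻¹) := by
      ext i
      · simp [tr, pe]
      · have : (pe s * g * (pe s)⁻¹).s = Equiv.swap a b := hs
        rw [mul_s, this]
        simp [tr, pe]
    rw [h2]
    exact Subgroup.mul_mem _ (tr_mem _) (Subgroup.mem_sup_left h1)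
  have h2 : s ∈ (Subgroup.normalClosure {g} ⊔ Subgroup.centralizer {g}).comap pe := by
    rw [h]; trivial
  exact h2

lemma sup_eq_top : Subgroup.normalClosure {g} ⊔ Subgroup.centralizer {g} = ⊤ := by
  rw [eq_top_iff]
  intro a _
  have : a = tr a.v * pe a.s := by
    ext i
    · simp [tr, pe]
    · simp [tr, pe]
  rw [this]
  exact Subgroup.mul_mem _ (tr_mem _) (pe_mem _)

lemma g_sq : g ^ 2 = tr ![0, 0, 72, 65, 77] := by
  rw [sq]
  ext i
  · simp only [tr, g, mul_v, Equiv.swap_inv]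
    revert i
    decide
  · simp [tr, g]

lemma tr_pow (u : Fin 5 → ZMod 105) (n : ℕ) : tr u ^ n = tr (n • u) := by
  induction n with
  | zero => rw [pow_zero, zero_smul]; rfl
  | succ n ih => rw [pow_succ, ih, succ_nsmul, tr_add]

lemma g_pow_even (n : ℕ) : g ^ (2 * n) = tr (n • ![0, 0, 72, 65, 77]) := by
  rw [pow_mul, g_sq, tr_pow]

lemma g30 : g ^ 30 = tr ![0, 0, 30, 30, 0] := by
  rw [show 30 = 2 * 15 from rfl, g_pow_even]
  congr 1
  decide

lemma g42 : g ^ 42 = tr ![0, 0, 42, 0, 42] := by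
  rw [show 42 = 2 * 21 from rfl, g_pow_even]
  congr 1
  decide

lemma g70 : g ^ 70 = tr ![0, 0, 0, 70, 70] := by
  rw [show 70 = 2 * 35 from rfl, g_pow_even]
  congr 1
  decide

/-- conjugating by a translation -/
lemma conj_tr_eq_iff (u : Fin 5 → ZMod 105) (x : W) :
    tr u * x * (tr u)⁻¹ = x ↔ ∀ i, u i = u (x.s⁻¹ i) := by
  constructor
  · intro h i
    have := congrArg (fun y : W => y.v i) h
    simp only [tr, mul_v, inv_one, Equiv.Perm.one_apply, mul_s, one_mul, inv_v] at this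
    have h3 : u i + x.v i = x.v i + u (x.s⁻¹ i) := by
      linear_combination this
    linear_combination h3
  · intro h
    ext i
    · simp only [tr, mul_v, inv_one, Equiv.Perm.one_apply, mul_s, one_mul, inv_v]
      rw [h i]
      ring
    · simp [tr]

lemma cover (a b : Fin 5) :
    (∀ i, (![0, 0, 30, 30, 0] : Fin 5 → ZMod 105) i =
      (![0, 0, 30, 30, 0] : Fin 5 → ZMod 105) (Equiv.swap a b i)) ∨
    (∀ i, (![0, 0, 42, 0, 42] : Fin 5 → ZMod 105) i =
      (![0, 0, 42, 0, 42] : Fin 5 → ZMod 105) (Equiv.swap a b i)) ∨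
    (∀ i, (![0, 0, 0, 70, 70] : Fin 5 → ZMod 105) i =
      (![0, 0, 0, 70, 70] : Fin 5 → ZMod 105) (Equiv.swap a b i)) := by
  revert a b
  decide

/-- the base point -/
def x0 : CC g := CC.base g

lemma fix_of (m : ℕ) (u : Fin 5 → ZMod 105) (hm : g ^ m = tr u) (z : CC g) :
    (Shelf.act x0)^[m] z = z ↔ ∀ i, u i = u (z.1.s⁻¹ i) := by
  rw [← conj_tr_eq_iff, ← hm]
  constructor
  · intro h
    have := congrArg Subtype.val h
    rw [CC.act_iter_val] at this
    exact this
  · intro h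
    apply Subtype.ext
    rw [CC.act_iter_val]
    exact h

lemma no_orbit (z : CC g) :
    (Shelf.act x0)^[30] z = z ∨ (Shelf.act x0)^[42] z = z ∨ (Shelf.act x0)^[70] z = z := by
  rw [fix_of 30 _ g30, fix_of 42 _ g42, fix_of 70 _ g70]
  obtain ⟨h, hh⟩ := z.2
  have : z.1.s = Equiv.swap (h.s 0) (h.s 1) := by
    rw [← hh, Equiv.swap_apply_apply]
    rfl
  rw [this, Equiv.swap_inv]
  exact cover (h.s 0) (h.s 1)

/-- further points -/
def pt (s : Equiv.Perm (Fin 5)) : CC g := ⟨pe s * g * (pe s)⁻¹, pe s, rfl⟩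

lemma pt_s (s : Equiv.Perm (Fin 5)) : (pt s).1.s = Equiv.swap (s 0) (s 1) := by
  rw [Equiv.swap_apply_apply]
  rfl

theorem main : ¬ (∀ (X : Type) [Quandle X] [Fintype X],
      (∀ a b : X, ∃ g ∈ Subgroup.closure (Set.range (Rack.act' : X → Equiv.Perm X)), g a = b) →
      ∀ x : X, ∃ z : X, ∀ y : X,
        Function.minimalPeriod (Shelf.act x) y ∣ Function.minimalPeriod (Shelf.act x) z) := by
  intro H
  obtain ⟨z, hz⟩ := @H (CC g) _ (Fintype.ofFinite _) (CC.connected sup_eq_top) x0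
  have key : ∀ m : ℕ, (Shelf.act x0)^[m] z = z → ∀ y : CC g, (Shelf.act x0)^[m] y = y := by
    intro m hm y
    have h1 : Function.minimalPeriod (Shelf.act x0) z ∣ m :=
      Function.IsPeriodicPt.minimalPeriod_dvd hm
    have h2 := (hz y).trans h1
    obtain ⟨k, hk⟩ := h2
    rw [hk]
    exact (Function.isPeriodicPt_minimalPeriod (Shelf.act x0) y).mul_const k
  rcases no_orbit z with h | h | h
  · have h1 := key _ h (pt (Equiv.swap 0 2 * Equiv.swap 1 4))
    rw [fix_of 30 _ g30, pt_s, Equiv.swap_inv] at h1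
    revert h1
    decide
  · have h1 := key _ h (pt (Equiv.swap 0 2 * Equiv.swap 1 3))
    rw [fix_of 42 _ g42, pt_s, Equiv.swap_inv] at h1
    revert h1
    decide
  · have h1 := key _ h (pt (Equiv.swap 0 2 * Equiv.swap 1 3))
    rw [fix_of 70 _ g70, pt_s, Equiv.swap_inv] at h1
    revert h1
    decide

end Pool.Agent.H435R3.Hayashi
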